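import Pool.Agent.H60.ACN.Targets
import Mathlib.Topology.MetricSpace.GromovHausdorff

/-! acn_modules EXT: rescaled doubling sets have compact limits -/

set_option autoImplicit false

namespace Pool.Agent.H8.ACN

open Pool.Agent.H60.ACN Pool.Agent.H60.W Filter GromovHausdorff

/-- Gromov-Hausdorff compactness, with almost isometries -/
theorem ghc (Y : ℕ → Type) [∀ j, MetricSpace (Y j)] [∀ j, CompactSpace (Y j)]
    [∀ j, Nonempty (Y j)] (C : ℝ) (hC : ∀ j, ∀ x y : Y j, dist x y ≤ C) (u : ℕ → ℝ)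
    (hu : Tendsto u atTop (nhds 0))
    (hcov : ∀ n, ∃ (I : Type) (_ : Fintype I), ∀ j, ∃ f : I → Y j, ∀ x, ∃ i, dist x (f i) < u n) :
    ∃ (K : Type) (_ : MetricSpace K) (_ : CompactSpace K) (_ : Nonempty K) (θ : ℕ → ℕ)
      (φ : ∀ n, K → Y (θ n)) (ψ : ∀ n, Y (θ n) → K) (a : ℕ → ℝ), StrictMono θ ∧
      Tendsto a atTop (nhds 0) ∧ ∀ n, (∀ x y, |dist (φ n x) (φ n y) - dist x y| ≤ a n) ∧
        ∀ z, dist (φ n (ψ n z)) z ≤ a n := by
  classical
  choose I hI f hf using hcov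
  have hiso : ∀ j, Nonempty (Y j ≃ᵢ (toGHSpace (Y j)).Rep) := fun j => by
    rw [← toGHSpace_eq_toGHSpace_iff_isometryEquiv, GHSpace.toGHSpace_rep]
  have htb : TotallyBounded (Set.range fun j => toGHSpace (Y j)) := by
    refine totallyBounded (C := C) (u := u) (K := fun n => Fintype.card (I n)) hu ?_ ?_
    · rintro _ ⟨j, rfl⟩
      obtain ⟨e⟩ := hiso j
      have hC0 : 0 ≤ C := by
        obtain ⟨x⟩ := (inferInstance : Nonempty (Y j))
        have := hC j x x
        rwa [dist_self] at this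
      refine Metric.diam_le_of_forall_dist_le hC0 ?_
      intro x _ y _
      rw [← e.apply_symm_apply x, ← e.apply_symm_apply y, e.dist_eq]
      exact hC j _ _
    · rintro _ ⟨j, rfl⟩ n
      obtain ⟨e⟩ := hiso j
      refine ⟨Set.range fun i => e (f n j i), ?_, ?_⟩
      · refine (Cardinal.mk_range_le).trans ?_
        rw [Cardinal.mk_fintype]
      · intro x _
        obtain ⟨i, hi⟩ := hf n j (e.symm x)
        refine Set.mem_iUnion₂.2 ⟨e (f n j i), ⟨i, rfl⟩, ?_⟩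
        rw [Metric.mem_ball, ← e.apply_symm_apply x, e.dist_eq]
        exact hi
  have hcpt : IsCompact (closure (Set.range fun j => toGHSpace (Y j))) :=
    isCompact_iff_totallyBounded_isComplete.2 ⟨htb.closure, isClosed_closure.isComplete⟩
  obtain ⟨q, -, θ, hθ, hlim⟩ := hcpt.tendsto_subseq
    (x := fun j => toGHSpace (Y j)) (fun j => subset_closure ⟨j, rfl⟩)
  have hd : ∀ n, dist (toGHSpace (Y (θ n))) q = ghDist (Y (θ n)) q.Rep := by
    intro n
    rw [ghDist, GHSpace.toGHSpace_rep]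
  have hfin : ∀ n, Metric.hausdorffEDist (Set.range (optimalGHInjl (Y (θ n)) q.Rep))
      (Set.range (optimalGHInjr (Y (θ n)) q.Rep)) ≠ ⊤ := by
    intro n
    refine Metric.hausdorffEDist_ne_top_of_nonempty_of_bounded (Set.range_nonempty _)
      (Set.range_nonempty _) ?_ ?_
    · exact (isCompact_range (isometry_optimalGHInjl (Y (θ n)) q.Rep).continuous).isBounded
    · exact (isCompact_range (isometry_optimalGHInjr (Y (θ n)) q.Rep).continuous).isBounded
  have hlt : ∀ n : ℕ, Metric.hausdorffDist (Set.range (optimalGHInjl (Y (θ n)) q.Rep))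
      (Set.range (optimalGHInjr (Y (θ n)) q.Rep)) <
        dist (toGHSpace (Y (θ n))) q + 1 / ((n : ℝ) + 1) := by
    intro n
    rw [hausdorffDist_optimal, hd n]
    have : (0 : ℝ) < 1 / ((n : ℝ) + 1) := by positivity
    linarith
  have h1 : ∀ (n : ℕ) (x : q.Rep), ∃ y : Y (θ n),
      dist (optimalGHInjl (Y (θ n)) q.Rep y) (optimalGHInjr (Y (θ n)) q.Rep x) <
        dist (toGHSpace (Y (θ n))) q + 1 / ((n : ℝ) + 1) := by
    intro n x
    obtain ⟨_, ⟨y, rfl⟩, hy⟩ := Metric.exists_dist_lt_of_hausdorffDist_lt'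
      (Set.mem_range_self x) (hlt n) (hfin n)
    exact ⟨y, hy⟩
  have h2 : ∀ (n : ℕ) (y : Y (θ n)), ∃ x : q.Rep,
      dist (optimalGHInjl (Y (θ n)) q.Rep y) (optimalGHInjr (Y (θ n)) q.Rep x) <
        dist (toGHSpace (Y (θ n))) q + 1 / ((n : ℝ) + 1) := by
    intro n y
    obtain ⟨_, ⟨x, rfl⟩, hx⟩ := Metric.exists_dist_lt_of_hausdorffDist_lt
      (Set.mem_range_self y) (hlt n) (hfin n)
    exact ⟨x, hx⟩
  choose φ hφ using h1
  choose ψ hψ using h2
  refine ⟨q.Rep, inferInstance, inferInstance, inferInstance, θ, φ, ψ,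
    fun n => 2 * (dist (toGHSpace (Y (θ n))) q + 1 / ((n : ℝ) + 1)), hθ, ?_, ?_⟩
  · have e1 : Tendsto (fun n => dist (toGHSpace (Y (θ n))) q) atTop (nhds 0) :=
      tendsto_iff_dist_tendsto_zero.1 hlim
    have e2 := (e1.add (tendsto_one_div_add_atTop_nhds_zero_nat (𝕜 := ℝ))).const_mul 2
    simpa using e2
  · intro n
    have il := isometry_optimalGHInjl (Y (θ n)) q.Rep
    have ir := isometry_optimalGHInjr (Y (θ n)) q.Rep
    constructor
    · intro x y
      rw [← il.dist_eq, ← ir.dist_eq, abs_le]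
      have a1 := hφ n x
      have a2 := hφ n y
      constructor
      · have := dist_triangle4 (optimalGHInjr (Y (θ n)) q.Rep x)
          (optimalGHInjl (Y (θ n)) q.Rep (φ n x)) (optimalGHInjl (Y (θ n)) q.Rep (φ n y))
          (optimalGHInjr (Y (θ n)) q.Rep y)
        rw [dist_comm] at a1
        linarith
      · have := dist_triangle4 (optimalGHInjl (Y (θ n)) q.Rep (φ n x))
          (optimalGHInjr (Y (θ n)) q.Rep x) (optimalGHInjr (Y (θ n)) q.Rep y)
          (optimalGHInjl (Y (θ n)) q.Rep (φ n y))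
        rw [dist_comm] at a2
        linarith
    · intro z
      rw [← il.dist_eq]
      have a1 := hφ n (ψ n z)
      have a2 := hψ n z
      have := dist_triangle (optimalGHInjl (Y (θ n)) q.Rep (φ n (ψ n z)))
          (optimalGHInjr (Y (θ n)) q.Rep (ψ n z)) (optimalGHInjl (Y (θ n)) q.Rep z)
      rw [dist_comm] at a2
      linarith

/-- a subset with the metric divided by `s` -/
def Sc {X : Type} (Z : Set X) (_ : ℝ) : Type := Z

/-- the metric of `Sc Z s` -/
@[instance_reducible] noncomputable def scMetric {X : Type} [MetricSpace X] (Z : Set X) (s : ℝ) (hs : 0 < s) :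
    MetricSpace (Sc Z s) where
  dist x y := dist (show X from x.1) (show X from y.1) / s
  dist_self x := by
    show dist _ _ / s = 0
    rw [dist_self, zero_div]
  dist_comm x y := by
    show dist _ _ / s = dist _ _ / s
    rw [dist_comm]
  dist_triangle x y z := by
    show dist _ _ / s ≤ dist _ _ / s + dist _ _ / s
    rw [← add_div]
    exact div_le_div_of_nonneg_right (dist_triangle _ _ _) hs.le
  eq_of_dist_eq_zero {x y} h := by
    have h' : dist (show X from x.1) (show X from y.1) / s = 0 := h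
    rcases div_eq_zero_iff.1 h' with h1 | h1
    · exact Subtype.ext (dist_eq_zero.1 h1)
    · exact absurd h1 hs.ne'

theorem net_cover {X : Type} [MetricSpace X] {N : ℕ} {R L s t ε : ℝ} {B Z : Set X}
    (hB : Lsd N R B) (hZB : Z ⊆ B) (ht : 0 < t) (hRt : R ≤ t / 2) (hs : 0 < s)
    (hZ : ∀ x ∈ Z, ∀ y ∈ Z, x ≠ y → t ≤ dist x y) (hd : ∀ x ∈ B, ∀ y ∈ B, dist x y ≤ L * s)
    (z0 : X) (hz0 : z0 ∈ Z) (hε : 0 < ε) (m : ℕ) (hm : L < 2 ^ m * (ε / 2)) :
    ∃ f : (Fin m → Fin N) → X, (∀ i, f i ∈ Z) ∧ ∀ z ∈ Z, ∃ i, dist z (f i) < ε * s := by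
  classical
  set r : ℝ := max (ε * s / 2) (t / 2) with hr
  have hr0 : 0 ≤ r := le_max_of_le_right (by linarith)
  obtain ⟨c, hc⟩ := hB.cover hr0 (hRt.trans (le_max_right _ _)) m z0
  have hball : ∀ z ∈ Z, z ∈ Metric.ball z0 (2 ^ m * r) := by
    intro z hz
    rw [Metric.mem_ball]
    have h1 := hd z (hZB hz) z0 (hZB hz0)
    have h2 : L * s < 2 ^ m * (ε * s / 2) := by
      have := mul_lt_mul_of_pos_right hm hs
      calc L * s < 2 ^ m * (ε / 2) * s := this
        _ = 2 ^ m * (ε * s / 2) := by ring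
    have h3 : (2 : ℝ) ^ m * (ε * s / 2) ≤ 2 ^ m * r :=
      mul_le_mul_of_nonneg_left (le_max_left _ _) (by positivity)
    linarith
  have key : ∀ i, ∃ y ∈ Z, (∃ w ∈ Z, w ∈ Metric.ball (c i) r) → y ∈ Metric.ball (c i) r := by
    intro i
    by_cases h : ∃ w ∈ Z, w ∈ Metric.ball (c i) r
    · obtain ⟨w, hw, hw'⟩ := h
      exact ⟨w, hw, fun _ => hw'⟩
    · exact ⟨z0, hz0, fun h' => absurd h' h⟩
  choose f hf1 hf2 using key
  refine ⟨f, hf1, fun z hz => ?_⟩
  obtain ⟨i, hi⟩ := Set.mem_iUnion.1 (hc ⟨hZB hz, hball z hz⟩)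
  refine ⟨i, ?_⟩
  have h1 := hf2 i ⟨z, hz, hi⟩
  rw [Metric.mem_ball] at h1 hi
  have h2 : dist z (f i) < 2 * r := by
    have := dist_triangle z (c i) (f i)
    rw [dist_comm (c i)] at this
    linarith
  rcases le_total (ε * s / 2) (t / 2) with h3 | h3
  · rw [hr, max_eq_right h3] at h2
    by_contra hcon
    have h4 : z ≠ f i := by
      intro h5
      rw [← h5, dist_self] at hcon
      exact hcon (by positivity)
    have := hZ z hz (f i) (hf1 i) h4
    linarith
  · rw [hr, max_eq_left h3] at h2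
    linarith

theorem pf_EXT : T_EXT := by
  intro X _ N R L s B hs hs0 hB hne hd
  classical
  set t : ℝ := max (2 * R) 1 with ht
  have ht0 : 0 < t := lt_max_of_lt_right one_pos
  have hRt : R ≤ t / 2 := by
    have := le_max_left (2 * R) 1
    rw [← ht] at this
    linarith
  have hnet : ∀ j, ∃ Z ⊆ B j, (∀ x ∈ Z, ∀ y ∈ Z, x ≠ y → t ≤ dist x y) ∧
      ∀ a ∈ B j, ∃ z ∈ Z, dist a z < t := fun j => exists_net (B j) t ht0
  choose Z hZB hZ hZt using hnet
  have hZne : ∀ j, (Z j).Nonempty := fun j => by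
    obtain ⟨b, hb⟩ := hne j
    obtain ⟨z, hz, -⟩ := hZt j b hb
    exact ⟨z, hz⟩
  have hcover : ∀ (j : ℕ) (ε : ℝ), 0 < ε → ∀ m : ℕ, L < 2 ^ m * (ε / 2) →
      ∃ f : (Fin m → Fin N) → X, (∀ i, f i ∈ Z j) ∧ ∀ z ∈ Z j, ∃ i, dist z (f i) < ε * s j := by
    intro j ε hε m hm
    obtain ⟨z0, hz0⟩ := hZne j
    exact net_cover (hB j) (hZB j) ht0 hRt (hs0 j) (hZ j) (hd j) z0 hz0 hε m hm
  have hpow : ∀ ε : ℝ, 0 < ε → ∃ m : ℕ, L < 2 ^ m * (ε / 2) := by
    intro ε hε
    obtain ⟨m, hm⟩ := pow_unbounded_of_one_lt (L / (ε / 2)) (one_lt_two (α := ℝ))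
    exact ⟨m, (div_lt_iff₀ (by positivity)).1 hm⟩
  have hfin : ∀ j, (Z j).Finite := by
    intro j
    obtain ⟨m, hm⟩ := hpow (t / s j) (div_pos ht0 (hs0 j))
    obtain ⟨f, hf1, hf2⟩ := hcover j (t / s j) (div_pos ht0 (hs0 j)) m hm
    refine (Set.finite_range f).subset ?_
    intro z hz
    obtain ⟨i, hi⟩ := hf2 z hz
    rw [div_mul_cancel₀ _ (hs0 j).ne'] at hi
    by_contra hcon
    have h1 : z ≠ f i := fun h => hcon ⟨i, h.symm⟩
    have := hZ j z hz (f i) (hf1 i) h1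
    linarith
  let _ : ∀ j, MetricSpace (Sc (Z j) (s j)) := fun j => scMetric (Z j) (s j) (hs0 j)
  have : ∀ j, Finite (Sc (Z j) (s j)) := fun j => (hfin j).to_subtype
  have : ∀ j, CompactSpace (Sc (Z j) (s j)) := fun j => Finite.compactSpace
  have : ∀ j, Nonempty (Sc (Z j) (s j)) := fun j => (hZne j).to_subtype
  have hdist : ∀ j, ∀ x y : Sc (Z j) (s j), dist x y = dist (x.1 : X) (y.1 : X) / s j :=
    fun j x y => rfl
  obtain ⟨K, hK1, hK2, hK3, θ, φ, ψ, a, hθ, ha, hmain⟩ := ghc (fun j => Sc (Z j) (s j)) L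
    (fun j x y => by
      rw [hdist, div_le_iff₀ (hs0 j)]
      exact hd j _ (hZB j x.2) _ (hZB j y.2))
    (fun n => (1 / 2 : ℝ) ^ n) (tendsto_pow_atTop_nhds_zero_of_lt_one (by norm_num) (by norm_num))
    (fun n => by
      have hε : (0 : ℝ) < (1 / 2) ^ n := by positivity
      obtain ⟨m, hm⟩ := hpow _ hε
      refine ⟨Fin m → Fin N, inferInstance, fun j => ?_⟩
      obtain ⟨f, hf1, hf2⟩ := hcover j _ hε m hm
      refine ⟨fun i => ⟨f i, hf1 i⟩, fun x => ?_⟩
      obtain ⟨i, hi⟩ := hf2 x.1 x.2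
      refine ⟨i, ?_⟩
      rw [hdist, div_lt_iff₀ (hs0 j)]
      exact hi)
  have hz : ∀ (n : ℕ) (b : X), ∃ z : Sc (Z (θ n)) (s (θ n)), b ∈ B (θ n) → dist b z.1 < t := by
    intro n b
    by_cases hb : b ∈ B (θ n)
    · obtain ⟨z, hz, hz'⟩ := hZt (θ n) b hb
      exact ⟨⟨z, hz⟩, fun _ => hz'⟩
    · obtain ⟨z, hz⟩ := hZne (θ n)
      exact ⟨⟨z, hz⟩, fun h => absurd h hb⟩
  choose z hz using hz
  have hpos : ∀ n, 0 ≤ t / s (θ n) := fun n => (div_pos ht0 (hs0 _)).le
  refine ⟨K, hK1, hK2, θ, fun n x => (φ n x).1, fun n b => ψ n (z n b),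
    fun n => a n + t / s (θ n), hθ, ?_, ?_⟩
  · have h1 : Tendsto (fun n => t / s (θ n)) atTop (nhds 0) :=
      Tendsto.const_div_atTop (hs.comp hθ.tendsto_atTop) t
    simpa using ha.add h1
  · intro n
    obtain ⟨h1, h2⟩ := hmain n
    refine ⟨fun x => hZB _ (φ n x).2, fun x y => ?_, fun b hb => ?_⟩
    · have h3 := h1 x y
      rw [hdist] at h3
      exact h3.trans (le_add_of_nonneg_right (hpos n))
    · have h3 := h2 (z n b)
      rw [hdist, div_le_iff₀ (hs0 _)] at h3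
      have h4 := hz n b hb
      have h5 := dist_triangle (φ n (ψ n (z n b))).1 (z n b).1 b
      rw [dist_comm b] at h4
      have h6 : (a n + t / s (θ n)) * s (θ n) = a n * s (θ n) + t := by
        rw [add_mul, div_mul_cancel₀ _ (hs0 _).ne']
      rw [h6]
      linarith

end Pool.Agent.H8.ACN
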